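import Pool.Agent.Helper54.R1.Geo

set_option autoImplicit false

/-! # Region R1 of MP_a8383f_co, packet DF: the direction opens every contact, FCC order -/

namespace Pool.Agent.Helper19.R1

open Real Pool.Agent.Helper66.Kiss Pool.Agent.Helper54.R1

lemma cos_mid {x : ℝ} (h0 : π / 4 ≤ x) (h1 : x ≤ 7 * π / 4) : cos x ≤ 3 / 4 := by
  have hp := Real.pi_pos
  have hs : √2 / 2 ≤ 3 / 4 := by
    have h2 : √2 ≤ 3 / 2 := by
      rw [show (3 / 2 : ℝ) = √((3 / 2) ^ 2) by rw [Real.sqrt_sq (by norm_num)]]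
      exact Real.sqrt_le_sqrt (by norm_num)
    linarith
  rcases le_total x π with h | h
  · have h2 := Real.cos_le_cos_of_nonneg_of_le_pi (x := π / 4) (y := x) (by linarith) h h0
    rw [Real.cos_pi_div_four] at h2
    linarith
  · have h2 := Real.cos_le_cos_of_nonneg_of_le_pi (x := π / 4) (y := 2 * π - x) (by linarith)
      (by linarith) (by linarith)
    rw [Real.cos_pi_div_four, Real.cos_two_pi_sub] at h2
    linarith

/-- far pairs -/
lemma far {z w a b v v' p q : ℝ} (hzw : z * w ≤ 2 / 5) (h0 : π / 2 ≤ b - a)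
    (h1 : b - a ≤ 3 * π / 2) : DG z w a b v v' p q := by
  apply dg_of_lt
  apply lt_of_cos_nonpos hzw
  rw [← Real.cos_neg, neg_sub]
  exact Real.cos_nonpos_of_pi_div_two_le_of_le h0 (by linarith)

/-- a `U` and an `L` which are not on top of each other -/
lemma midUL {ε e a b v v' p q : ℝ} (h0 : 0 ≤ ε) (h2 : ε ≤ 3 / 256) (h3 : |e| ≤ 3 / 256)
    (h4 : π / 4 ≤ b - a) (h5 : b - a ≤ 7 * π / 4) :
    DG (1 / 2 - ε) (-1 / 2 - e) a b v v' p q := by
  have he := abs_le.1 h3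
  apply dg_of_lt
  apply lt_of_mid
  · nlinarith
  · rw [← Real.cos_neg, neg_sub]
    exact cos_mid h4 h5
  · nlinarith
  · nlinarith

lemma midUL' {ε e a b v v' p q : ℝ} (h0 : 0 ≤ ε) (h2 : ε ≤ 3 / 256) (h3 : |e| ≤ 3 / 256)
    (h4 : π / 4 ≤ a - b) (h5 : a - b ≤ 7 * π / 4) :
    DG (1 / 2 - ε) (-1 / 2 - e) a b v v' p q := by
  have he := abs_le.1 h3
  apply dg_of_lt
  apply lt_of_mid
  · nlinarith
  · exact cos_mid h4 h5
  · nlinarith
  · nlinarith

/-- `S'` with a point which is not low -/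
lemma farS {z zs a b v v' p q y : ℝ} (hy : y ≤ 1 / 16) (h0 : z * zs ≤ 1 / 16)
    (hd : √(1 - zs ^ 2) ≤ 7 / 25 * y) : DG z zs a b v v' p q := by
  apply dg_of_lt
  unfold gg
  have h1 : √(1 - z ^ 2) ≤ 1 := Real.sqrt_le_iff.2 ⟨by norm_num, by nlinarith [sq_nonneg z]⟩
  have h2 : 0 ≤ √(1 - z ^ 2) := Real.sqrt_nonneg _
  have h3 : 0 ≤ √(1 - zs ^ 2) := Real.sqrt_nonneg _
  have h4 : √(1 - z ^ 2) * √(1 - zs ^ 2) * cos (a - b) ≤ √(1 - zs ^ 2) := by
    have h5 : √(1 - z ^ 2) * √(1 - zs ^ 2) ≤ √(1 - zs ^ 2) := by nlinarith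
    have h6 : √(1 - z ^ 2) * √(1 - zs ^ 2) * cos (a - b) ≤ √(1 - z ^ 2) * √(1 - zs ^ 2) * 1 :=
      mul_le_mul_of_nonneg_left (Real.cos_le_one _) (by positivity)
    linarith
  linarith

lemma sin_pos_sub {a b : ℝ} (h0 : 0 < b - a) (h1 : b - a < π) : 0 < sin (b - a) :=
  Real.sin_pos_of_pos_of_lt_pi h0 h1

lemma sin_pos_neg {x : ℝ} (h0 : π < x) (h1 : x < 2 * π) : 0 < sin (0 - x) := by
  have h2 : sin (0 - x) = sin (2 * π - x) := by
    rw [Real.sin_two_pi_sub, zero_sub, Real.sin_neg]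
  rw [h2]
  exact Real.sin_pos_of_pos_of_lt_pi (by linarith) (by linarith)

theorem df : DF_stmt := by
  intro C1 C2 C3 C4 C6 C7 C8 y y1 y2 zs c s ε e a b hB hWa hWb hX hy
  obtain ⟨hy1, hy2, hle, hz0, hz1, hε0, hερ, heρ, -, -, -, -, -, -, -, -, -, -, -, -⟩ := hB
  obtain ⟨-, hy16, hp, hq, hε, hel, heu, hd, hXl, hXu⟩ := hX
  obtain ⟨a0, a0', a1, a1', c0, c0', a2, a2', a3, a3', t03, t12⟩ := hWa
  obtain ⟨b0, b0', b1, b1', -, -, b2, b2', b3, b3', r03, r12⟩ := hWb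
  have hpi1 := Real.pi_gt_d4
  have hpi2 := Real.pi_lt_d4
  obtain ⟨hT1, hT2⟩ := T0_num
  have hT3 := T0_lo
  have hT4 := T0_hi
  have y1b := abs_le.1 hy1
  have y2b := abs_le.1 hy2
  have hr : 0 < √2 := by positivity
  have hzU : ∀ k, 0 ≤ 1 / 2 - ε k ∧ 1 / 2 - ε k ≤ 1 / 2 := fun k =>
    ⟨by linarith [hερ k], by linarith [hε0 k]⟩
  have hzL : ∀ k, -(13 / 25) ≤ -1 / 2 - e k ∧ -1 / 2 - e k ≤ 0 := fun k => by
    have := abs_le.1 (heρ k)
    constructor <;> linarith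
  have yU : ∀ z : ℝ, -(1 / 16) ≤ z → z ≤ 1 / 16 → ∀ k, z * (1 / 2 - ε k) ≤ 2 / 5 := by
    intro z h1 h2 k
    have := hzU k
    nlinarith
  have yL : ∀ z : ℝ, -(1 / 16) ≤ z → z ≤ 1 / 16 → ∀ k, z * (-1 / 2 - e k) ≤ 2 / 5 := by
    intro z h1 h2 k
    have := hzL k
    nlinarith
  have UU : ∀ j k, (1 / 2 - ε j) * (1 / 2 - ε k) ≤ 2 / 5 := by
    intro j k
    have h1 := hzU j
    have h2 := hzU k
    nlinarith
  have LL : ∀ j k, (-1 / 2 - e j) * (-1 / 2 - e k) ≤ 2 / 5 := by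
    intro j k
    have h1 := hzL j
    have h2 := hzL k
    nlinarith
  have hXl' : ∀ k (x : ℝ), YF a b k = √2 * x → 3 / 5 * y / √2 ≤ x ∧ x ≤ 1 / 2 := by
    intro k x hx
    have h1 := hXl k
    have h2 := hXu k
    rw [hx] at h1 h2
    refine ⟨?_, ?_⟩
    · rw [div_le_iff₀ hr]
      linarith
    · have h3 : 1 ≤ √2 := Real.one_le_sqrt.2 (by norm_num)
      by_contra h4
      push Not at h4
      nlinarith
  obtain ⟨x0, x0'⟩ := hXl' 0 (a 0 - b 0) rfl
  obtain ⟨x1, x1'⟩ := hXl' 1 (a 1 - b 1) rfl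
  obtain ⟨x2, x2'⟩ := hXl' 2 (b 2 - a 2) rfl
  obtain ⟨x3, x3'⟩ := hXl' 3 (b 3 - a 3) rfl
  refine ⟨?_, ?_, ?_, ?_, ?_, ?_, ?_, ?_, ?_, ?_, ?_, ?_⟩
  · exact far (by nlinarith) (by linarith) (by linarith)
  · exact farS hy16 (by nlinarith) hd
  · exact farS hy16 (by nlinarith) hd
  · intro k
    match k with
    | 0 => exact dg_pU_ahead (b := 3 / 5) C1 hy hy16 hp (hε0 0) (hε 0) (hερ 0) le_rfl
            (sin_pos_sub (by linarith) (by linarith))
    | 1 => exact far (yU y1 y1b.1 y1b.2 1) (by linarith) (by linarith)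
    | 2 => exact far (yU y1 y1b.1 y1b.2 2) (by linarith) (by linarith)
    | 3 =>
      refine dg_pU_behind (b := 3 / 5) C1 hy hy16 hp (hε0 3) (hε 3) (hερ 3) le_rfl ?_
      exact sin_pos_neg (by linarith) (by linarith)
  · intro k
    match k with
    | 0 => exact (far (by rw [mul_comm]; exact yU y2 y2b.1 y2b.2 0) (by linarith) (by linarith)).symm
    | 1 => exact dg_qU_before (b := 2 / 5) C3 hy hy16 hq (hε0 1) (hε 1) (hερ 1) le_rfl (by norm_num)
            (sin_pos_sub (by linarith) (by linarith))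
    | 2 => exact dg_qU_after (b := 2 / 5) C3 hy hy16 hq (hε0 2) (hε 2) (hερ 2) le_rfl (by norm_num)
            (sin_pos_sub (by linarith) (by linarith))
    | 3 => exact far (yU y2 y2b.1 y2b.2 3) (by linarith) (by linarith)
  · intro k
    refine (farS hy16 ?_ hd).symm
    have := hzU k
    nlinarith
  · intro k
    match k with
    | 0 => exact dg_pL_ahead C2 hy hy16 hp (hel 0) (heu 0) (heρ 0)
            (sin_pos_sub (by linarith) (by linarith))
    | 1 => exact far (yL y1 y1b.1 y1b.2 1) (by linarith) (by linarith)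
    | 2 => exact far (yL y1 y1b.1 y1b.2 2) (by linarith) (by linarith)
    | 3 =>
      refine dg_pL_behind C2 hy hy16 hp (hel 3) (heu 3) (heρ 3) ?_
      exact sin_pos_neg (by linarith) (by linarith)
  · intro k
    match k with
    | 0 => exact (far (by rw [mul_comm]; exact yL y2 y2b.1 y2b.2 0) (by linarith) (by linarith)).symm
    | 1 => exact dg_qL_before C4 hy hy16 hq (hel 1) (heu 1) (heρ 1)
            (sin_pos_sub (by linarith) (by linarith))
    | 2 => exact dg_qL_after C4 hy hy16 hq (hel 2) (heu 2) (heρ 2)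
            (sin_pos_sub (by linarith) (by linarith))
    | 3 => exact far (yL y2 y2b.1 y2b.2 3) (by linarith) (by linarith)
  · intro k
    refine (dg_SL C8 hy hy16 hz0 hz1 (heρ k) hd ?_).symm
    have h1 : 0 ≤ (1 + y / 5) / √2 := by positivity
    match k with
    | 0 => exact (abs_neg _).trans (abs_of_nonneg h1)
    | 1 => exact (abs_neg _).trans (abs_of_nonneg h1)
    | 2 => exact abs_of_nonneg h1
    | 3 => exact abs_of_nonneg h1
  · have h01 : DG (1 / 2 - ε 0) (1 / 2 - ε 1) (a 0) (a 1) 0 0 (PF y 0) (PF y 1) := by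
      refine dg_UU (hε0 0) (hερ 0) (hε0 1) (hερ 1) (sin_pos_sub (by linarith) (by linarith)) ?_
      show (1 - 3 / 5 * y) / √2 < (1 - 2 / 5 * y) / √2
      exact div_lt_div_of_pos_right (by linarith) hr
    have h23 : DG (1 / 2 - ε 2) (1 / 2 - ε 3) (a 2) (a 3) 0 0 (PF y 2) (PF y 3) := by
      refine dg_UU (hε0 2) (hερ 2) (hε0 3) (hερ 3) (sin_pos_sub (by linarith) (by linarith)) ?_
      show -((1 - 2 / 5 * y) / √2) < -((1 - 3 / 5 * y) / √2)
      exact neg_lt_neg (div_lt_div_of_pos_right (by linarith) hr)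
    have h02 : DG (1 / 2 - ε 0) (1 / 2 - ε 2) (a 0) (a 2) 0 0 (PF y 0) (PF y 2) :=
      far (UU 0 2) (by linarith) (by linarith)
    have h03 : DG (1 / 2 - ε 0) (1 / 2 - ε 3) (a 0) (a 3) 0 0 (PF y 0) (PF y 3) :=
      far (UU 0 3) (by linarith) (by linarith)
    have h12 : DG (1 / 2 - ε 1) (1 / 2 - ε 2) (a 1) (a 2) 0 0 (PF y 1) (PF y 2) :=
      far (UU 1 2) (by linarith) (by linarith)
    have h13 : DG (1 / 2 - ε 1) (1 / 2 - ε 3) (a 1) (a 3) 0 0 (PF y 1) (PF y 3) :=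
      far (UU 1 3) (by linarith) (by linarith)
    intro j k hjk
    match j, k with
    | 0, 0 => exact absurd rfl hjk
    | 0, 1 => exact h01
    | 0, 2 => exact h02
    | 0, 3 => exact h03
    | 1, 0 => exact h01.symm
    | 1, 1 => exact absurd rfl hjk
    | 1, 2 => exact h12
    | 1, 3 => exact h13
    | 2, 0 => exact h02.symm
    | 2, 1 => exact h12.symm
    | 2, 2 => exact absurd rfl hjk
    | 2, 3 => exact h23
    | 3, 0 => exact h03.symm
    | 3, 1 => exact h13.symm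
    | 3, 2 => exact h23.symm
    | 3, 3 => exact absurd rfl hjk
  · have h01 : DG (-1 / 2 - e 0) (-1 / 2 - e 1) (b 0) (b 1) (3 / 10 * y) (3 / 10 * y) (QF y 0)
        (QF y 1) := dg_LL C6 hy (heρ 0) (heρ 1)
    have h23 : DG (-1 / 2 - e 2) (-1 / 2 - e 3) (b 2) (b 3) (3 / 10 * y) (3 / 10 * y) (QF y 2)
        (QF y 3) := dg_LL C6 hy (heρ 2) (heρ 3)
    have h02 : DG (-1 / 2 - e 0) (-1 / 2 - e 2) (b 0) (b 2) (3 / 10 * y) (3 / 10 * y) (QF y 0)
        (QF y 2) := far (LL 0 2) (by linarith) (by linarith)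
    have h03 : DG (-1 / 2 - e 0) (-1 / 2 - e 3) (b 0) (b 3) (3 / 10 * y) (3 / 10 * y) (QF y 0)
        (QF y 3) := far (LL 0 3) (by linarith) (by linarith)
    have h12 : DG (-1 / 2 - e 1) (-1 / 2 - e 2) (b 1) (b 2) (3 / 10 * y) (3 / 10 * y) (QF y 1)
        (QF y 2) := far (LL 1 2) (by linarith) (by linarith)
    have h13 : DG (-1 / 2 - e 1) (-1 / 2 - e 3) (b 1) (b 3) (3 / 10 * y) (3 / 10 * y) (QF y 1)
        (QF y 3) := far (LL 1 3) (by linarith) (by linarith)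
    intro j k hjk
    match j, k with
    | 0, 0 => exact absurd rfl hjk
    | 0, 1 => exact h01
    | 0, 2 => exact h02
    | 0, 3 => exact h03
    | 1, 0 => exact h01.symm
    | 1, 1 => exact absurd rfl hjk
    | 1, 2 => exact h12
    | 1, 3 => exact h13
    | 2, 0 => exact h02.symm
    | 2, 1 => exact h12.symm
    | 2, 2 => exact absurd rfl hjk
    | 2, 3 => exact h23
    | 3, 0 => exact h03.symm
    | 3, 1 => exact h13.symm
    | 3, 2 => exact h23.symm
    | 3, 3 => exact absurd rfl hjk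
  · intro j k
    match j, k with
    | 0, 0 => exact dg_UL (b := 3 / 5) C7 hy hy16 (hε0 0) (hερ 0) (heρ 0) le_rfl x0 x0'
    | 1, 1 => exact dg_UL (b := 2 / 5) C7 hy hy16 (hε0 1) (hερ 1) (heρ 1) (by norm_num) x1 x1'
    | 2, 2 => exact dg_UL' (b := 2 / 5) C7 hy hy16 (hε0 2) (hερ 2) (heρ 2) (by norm_num) x2 x2'
    | 3, 3 => exact dg_UL' (b := 3 / 5) C7 hy hy16 (hε0 3) (hερ 3) (heρ 3) le_rfl x3 x3'
    | 0, 1 => exact midUL (hε0 0) (hερ 0) (heρ 1) (by linarith) (by linarith)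
    | 0, 2 => exact midUL (hε0 0) (hερ 0) (heρ 2) (by linarith) (by linarith)
    | 0, 3 => exact midUL (hε0 0) (hερ 0) (heρ 3) (by linarith) (by linarith)
    | 1, 2 => exact midUL (hε0 1) (hερ 1) (heρ 2) (by linarith) (by linarith)
    | 1, 3 => exact midUL (hε0 1) (hερ 1) (heρ 3) (by linarith) (by linarith)
    | 2, 3 => exact midUL (hε0 2) (hερ 2) (heρ 3) (by linarith) (by linarith)
    | 1, 0 => exact midUL' (hε0 1) (hερ 1) (heρ 0) (by linarith) (by linarith)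
    | 2, 0 => exact midUL' (hε0 2) (hερ 2) (heρ 0) (by linarith) (by linarith)
    | 3, 0 => exact midUL' (hε0 3) (hερ 3) (heρ 0) (by linarith) (by linarith)
    | 2, 1 => exact midUL' (hε0 2) (hερ 2) (heρ 1) (by linarith) (by linarith)
    | 3, 1 => exact midUL' (hε0 3) (hερ 3) (heρ 1) (by linarith) (by linarith)
    | 3, 2 => exact midUL' (hε0 3) (hερ 3) (heρ 2) (by linarith) (by linarith)

end Pool.Agent.Helper19.R1
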